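import Pool.Agent.W971.TightD

/-!
# MP_665542_gt: isometric embedding of perturbed metrics on an embedded torus

The torus is `ℝ² / ℤ²`; functions, metrics and maps on it are `ℤ²`-periodic objects on the plane.
We show that the answer to Q1 is negative: there is a smoothly embedded torus of revolution with
induced metric `g₀` such that arbitrarily close to `g₀` (in the `C⁰` norm, and even in every `C^K`
norm) there are smooth metrics with no smooth isometric immersion into `ℝ³`.
-/

open scoped ContDiff RealInnerProductSpace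
open Pool.Agent.W971.Tight Set

namespace Pool.Agent.Results.MP_665542_gt.TightTorus

/-- invariance under the lattice `ℤ²`: a function on the torus `ℝ² / ℤ²` -/
def Periodic2 {α : Type*} (f : ℝ × ℝ → α) : Prop :=
  ∀ (p : ℝ × ℝ) (m n : ℤ), f (p.1 + m, p.2 + n) = f p

/-- a smooth Riemannian metric on the torus `ℝ² / ℤ²`, given by its matrix in the coordinates -/
structure TorusMetric where
  /-- the matrix of the metric at a point -/
  mat : ℝ × ℝ → Matrix (Fin 2) (Fin 2) ℝ
  smooth : ∀ i j, ContDiff ℝ ∞ fun p => mat p i j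
  periodic : Periodic2 mat
  posDef : ∀ p, (mat p).PosDef

/-- the two coordinate directions -/
def dir : Fin 2 → ℝ × ℝ := ![(1, 0), (0, 1)]

/-- `f` is a smooth map of the torus into `ℝ³` whose pull-back of the Euclidean metric is `g` -/
structure IsIsometricImmersion (g : TorusMetric) (f : ℝ × ℝ → EuclideanSpace ℝ (Fin 3)) : Prop where
  smooth : ContDiff ℝ ∞ f
  periodic : Periodic2 f
  isometric : ∀ p i j, ⟪fderiv ℝ f p (dir i), fderiv ℝ f p (dir j)⟫ = g.mat p i j

/-- `f` is a smooth isometric embedding of the torus with metric `g` into `ℝ³` -/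
structure IsIsometricEmbedding (g : TorusMetric) (f : ℝ × ℝ → EuclideanSpace ℝ (Fin 3)) : Prop
    extends IsIsometricImmersion g f where
  injective : ∀ p q, f p = f q → ∃ m n : ℤ, q = (p.1 + m, p.2 + n)

/-- the pointwise `g₀`-norm of the tensor `g - g₀`: the square root of the trace of
`(g₀⁻¹ (g - g₀))²` -/
noncomputable def pointNorm (g₀ g : TorusMetric) (p : ℝ × ℝ) : ℝ :=
  Real.sqrt ((((g₀.mat p)⁻¹ * (g.mat p - g₀.mat p)) * ((g₀.mat p)⁻¹ * (g.mat p - g₀.mat p))).trace)

/-- `‖g - g₀‖_{C⁰} < ε`: the supremum over the torus of the pointwise `g₀`-norm of `g - g₀` is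
less than `ε` -/
def C0Close (g₀ g : TorusMetric) (ε : ℝ) : Prop :=
  ∃ δ < ε, ∀ p, pointNorm g₀ g p ≤ δ

/-- the matrices of `g` and `g₀`, and all their partial derivatives of order at most `K`, differ by
less than `ε` -/
def CkClose (K : ℕ) (g₀ g : TorusMetric) (ε : ℝ) : Prop :=
  ∀ k ≤ K, ∀ i j p, ‖iteratedFDeriv ℝ k (fun q => g.mat q i j - g₀.mat q i j) p‖ < ε

/-- the profile `c (2 + cos 2πu)` -/
noncomputable def prof (c u : ℝ) : ℝ := c * (2 + Real.cos (2 * Real.pi * u))

lemma prof_pos {c : ℝ} (hc : 0 < c) (u : ℝ) : 0 < prof c u := by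
  have := Real.neg_one_le_cos (2 * Real.pi * u)
  unfold prof
  apply mul_pos hc
  linarith

lemma prof_smooth (c : ℝ) : ContDiff ℝ ∞ (prof c) := by
  unfold prof
  exact contDiff_const.mul (contDiff_const.add (Real.contDiff_cos.comp
    (contDiff_const.mul contDiff_id)))

lemma deriv_prof (c : ℝ) : deriv (prof c) = fun u => -(c * (2 * Real.pi)) * Real.sin (2 * Real.pi * u) := by
  funext u
  have h : HasDerivAt (fun u : ℝ => 2 * Real.pi * u) (2 * Real.pi) u := by
    simpa using (hasDerivAt_id u).const_mul (2 * Real.pi)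
  have := ((h.cos).const_add 2).const_mul c
  have h2 : deriv (prof c) u = _ := this.deriv
  rw [h2]; ring

lemma deriv2_prof (c : ℝ) : deriv (deriv (prof c)) =
    fun u => -(c * (2 * Real.pi) * (2 * Real.pi)) * Real.cos (2 * Real.pi * u) := by
  rw [deriv_prof]
  funext u
  have h : HasDerivAt (fun u : ℝ => 2 * Real.pi * u) (2 * Real.pi) u := by
    simpa using (hasDerivAt_id u).const_mul (2 * Real.pi)
  have := (h.sin).const_mul (-(c * (2 * Real.pi)))
  rw [this.deriv]; ring

lemma total_curv {c : ℝ} (hc : 0 < c) :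
    ∫ u in (0:ℝ)..1, max (-(deriv (deriv (prof c)) u)) 0 = 4 * Real.pi * c := by
  rw [deriv2_prof]
  set G : ℝ → ℝ := fun u => max (-(-(c * (2 * Real.pi) * (2 * Real.pi)) * Real.cos (2 * Real.pi * u))) 0
    with hG
  have hπ := Real.pi_pos
  have hGc : Continuous G := by
    apply Continuous.max _ continuous_const
    fun_prop
  have hii : ∀ a b, IntervalIntegrable G MeasureTheory.volume a b := fun a b => hGc.intervalIntegrable a b
  have hder : ∀ u : ℝ, HasDerivAt (fun u => c * (2 * Real.pi) * Real.sin (2 * Real.pi * u))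
      (c * (2 * Real.pi) * (2 * Real.pi) * Real.cos (2 * Real.pi * u)) u := by
    intro u
    have h : HasDerivAt (fun u : ℝ => 2 * Real.pi * u) (2 * Real.pi) u := by
      simpa using (hasDerivAt_id u).const_mul (2 * Real.pi)
    have := (h.sin).const_mul (c * (2 * Real.pi))
    refine this.congr_deriv ?_
    ring
  have hint : ∀ a b : ℝ, ∫ u in a..b, c * (2 * Real.pi) * (2 * Real.pi) * Real.cos (2 * Real.pi * u)
      = c * (2 * Real.pi) * Real.sin (2 * Real.pi * b) - c * (2 * Real.pi) * Real.sin (2 * Real.pi * a) := by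
    intro a b
    apply intervalIntegral.integral_eq_sub_of_hasDerivAt (fun x _ => hder x)
    apply Continuous.intervalIntegrable
    fun_prop
  have hk : 0 < c * (2 * Real.pi) * (2 * Real.pi) := by positivity
  have i1 : ∫ u in (0:ℝ)..(1/4), G u = c * (2 * Real.pi) := by
    have : ∫ u in (0:ℝ)..(1/4), G u =
        ∫ u in (0:ℝ)..(1/4), c * (2 * Real.pi) * (2 * Real.pi) * Real.cos (2 * Real.pi * u) := by
      apply intervalIntegral.integral_congr
      intro u hu
      rw [uIcc_of_le (by norm_num)] at hu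
      have hcos : 0 ≤ Real.cos (2 * Real.pi * u) := by
        apply Real.cos_nonneg_of_mem_Icc
        constructor <;> nlinarith [hu.1, hu.2]
      simp only [hG]
      rw [max_eq_left (by nlinarith)]
      ring
    rw [this, hint]
    have e1 : 2 * Real.pi * (1/4) = Real.pi / 2 := by ring
    rw [e1, Real.sin_pi_div_two, mul_zero, Real.sin_zero]; ring
  have i2 : ∫ u in (1/4:ℝ)..(3/4), G u = 0 := by
    have : ∫ u in (1/4:ℝ)..(3/4), G u = ∫ u in (1/4:ℝ)..(3/4), (0:ℝ) := by
      apply intervalIntegral.integral_congr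
      intro u hu
      rw [uIcc_of_le (by norm_num)] at hu
      have hcos : Real.cos (2 * Real.pi * u) ≤ 0 := by
        apply Real.cos_nonpos_of_pi_div_two_le_of_le
        · nlinarith [hu.1, hu.2]
        · nlinarith [hu.1, hu.2]
      simp only [hG]
      rw [max_eq_right (by nlinarith)]
    rw [this]; simp
  have i3 : ∫ u in (3/4:ℝ)..1, G u = c * (2 * Real.pi) := by
    have : ∫ u in (3/4:ℝ)..1, G u =
        ∫ u in (3/4:ℝ)..1, c * (2 * Real.pi) * (2 * Real.pi) * Real.cos (2 * Real.pi * u) := by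
      apply intervalIntegral.integral_congr
      intro u hu
      rw [uIcc_of_le (by norm_num)] at hu
      have hcos : 0 ≤ Real.cos (2 * Real.pi * u) := by
        rw [← Real.cos_sub_two_pi]
        apply Real.cos_nonneg_of_mem_Icc
        constructor <;> nlinarith [hu.1, hu.2]
      simp only [hG]
      rw [max_eq_left (by nlinarith)]
      ring
    rw [this, hint]
    have e1 : 2 * Real.pi * 1 = 2 * Real.pi := by ring
    have e2 : 2 * Real.pi * (3/4) = Real.pi / 2 + Real.pi := by ring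
    rw [e1, e2, Real.sin_two_pi, Real.sin_add_pi, Real.sin_pi_div_two]; ring
  rw [← intervalIntegral.integral_add_adjacent_intervals (hii 0 (1/4)) (hii (1/4) 1),
    ← intervalIntegral.integral_add_adjacent_intervals (hii (1/4) (3/4)) (hii (3/4) 1), i1, i2, i3]
  ring

lemma prof_add_int (c u : ℝ) (m : ℤ) : prof c (u + m) = prof c u := by
  unfold prof
  have : 2 * Real.pi * (u + m) = 2 * Real.pi * u + m * (2 * Real.pi) := by ring
  rw [this, Real.cos_add_int_mul_two_pi]

/-- the metric `du² + (c (2 + cos 2πu))² dv²` -/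
noncomputable def met (c : ℝ) (hc : 0 < c) : TorusMetric where
  mat p := !![1, 0; 0, prof c p.1 ^ 2]
  smooth := by
    intro i j
    fin_cases i <;> fin_cases j
    · exact contDiff_const
    · exact contDiff_const
    · exact contDiff_const
    · exact ((prof_smooth c).comp contDiff_fst).pow 2
  periodic := by
    intro p m n
    simp only [prof_add_int]
  posDef := by
    intro p
    have : (!![1, 0; 0, prof c p.1 ^ 2] : Matrix (Fin 2) (Fin 2) ℝ)
        = Matrix.diagonal ![1, prof c p.1 ^ 2] := by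
      ext i j; fin_cases i <;> fin_cases j <;> simp
    rw [this]
    apply Matrix.PosDef.diagonal
    intro i
    have := prof_pos hc p.1
    fin_cases i
    · simp
    · simp; positivity

lemma no_immersion {c : ℝ} (hc : 0 < c) (hc1 : c < 1) :
    ¬ ∃ f, IsIsometricImmersion (met c hc) f := by
  rintro ⟨f, hf⟩
  have hI : Imm (prof c) f :=
    { smooth := hf.smooth
      per := hf.periodic
      h11 := fun p => hf.isometric p 0 0
      h12 := fun p => hf.isometric p 0 1
      h22 := fun p => hf.isometric p 1 1 }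
  have h := four_pi_le hI (prof_smooth c) (prof_pos hc)
  rw [total_curv hc] at h
  have := Real.pi_pos
  nlinarith

/-! ### the embedding of the metric with `c = 1` -/

/-- the torus of revolution -/
noncomputable def emb (p : ℝ × ℝ) : EuclideanSpace ℝ (Fin 3) :=
  WithLp.toLp 2 ![(2 + Real.cos (2 * Real.pi * p.1)) / (2 * Real.pi) * Real.cos (2 * Real.pi * p.2),
    (2 + Real.cos (2 * Real.pi * p.1)) / (2 * Real.pi) * Real.sin (2 * Real.pi * p.2),
    Real.sin (2 * Real.pi * p.1) / (2 * Real.pi)]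

lemma emb_smooth : ContDiff ℝ ∞ emb := by
  rw [contDiff_euclidean]
  have h1 : ContDiff ℝ ∞ (fun p : ℝ × ℝ => 2 * Real.pi * p.1) := contDiff_const.mul contDiff_fst
  have h2 : ContDiff ℝ ∞ (fun p : ℝ × ℝ => 2 * Real.pi * p.2) := contDiff_const.mul contDiff_snd
  intro i
  fin_cases i
  · exact ((contDiff_const.add (Real.contDiff_cos.comp h1)).div_const _).mul
      (Real.contDiff_cos.comp h2)
  · exact ((contDiff_const.add (Real.contDiff_cos.comp h1)).div_const _).mul
      (Real.contDiff_sin.comp h2)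
  · exact (Real.contDiff_sin.comp h1).div_const _

lemma emb_dir (p w : ℝ × ℝ) (i : Fin 3) (d : ℝ)
    (h : HasDerivAt (fun t : ℝ => emb (p + t • w) i) d 0) : (fderiv ℝ emb p w) i = d := by
  have hd := emb_smooth.differentiable (by simp) p
  have hl : HasDerivAt (fun t : ℝ => p + t • w) w 0 := by
    have := ((hasDerivAt_id (0:ℝ)).smul_const w).const_add p
    rw [one_smul] at this
    exact this
  have h0 : p + (0:ℝ) • w = p := by simp
  have h1 : HasDerivAt (fun t : ℝ => emb (p + t • w)) (fderiv ℝ emb p w) 0 := by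
    have h2 : HasFDerivAt emb (fderiv ℝ emb p) (p + (0:ℝ) • w) := by
      rw [h0]; exact hd.hasFDerivAt
    exact h2.comp_hasDerivAt 0 hl
  have h3 : HasDerivAt (fun t : ℝ => emb (p + t • w) i) ((fderiv ℝ emb p w) i) 0 :=
    ((EuclideanSpace.proj i : EuclideanSpace ℝ (Fin 3) →L[ℝ] ℝ).hasFDerivAt).comp_hasDerivAt 0 h1
  exact h3.unique h

lemma emb_d (p : ℝ × ℝ) (s t : ℝ) :
    (fderiv ℝ emb p (s, t)) 0 = -Real.sin (2 * Real.pi * p.1) * s * Real.cos (2 * Real.pi * p.2)
      - (2 + Real.cos (2 * Real.pi * p.1)) * Real.sin (2 * Real.pi * p.2) * t ∧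
    (fderiv ℝ emb p (s, t)) 1 = -Real.sin (2 * Real.pi * p.1) * s * Real.sin (2 * Real.pi * p.2)
      + (2 + Real.cos (2 * Real.pi * p.1)) * Real.cos (2 * Real.pi * p.2) * t ∧
    (fderiv ℝ emb p (s, t)) 2 = Real.cos (2 * Real.pi * p.1) * s := by
  have hπ := Real.pi_ne_zero
  have a1 : HasDerivAt (fun τ : ℝ => 2 * Real.pi * (p.1 + τ * s)) (2 * Real.pi * s) 0 := by
    have := (((hasDerivAt_id (0:ℝ)).mul_const s).const_add p.1).const_mul (2 * Real.pi)
    simpa using this
  have a2 : HasDerivAt (fun τ : ℝ => 2 * Real.pi * (p.2 + τ * t)) (2 * Real.pi * t) 0 := by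
    have := (((hasDerivAt_id (0:ℝ)).mul_const t).const_add p.2).const_mul (2 * Real.pi)
    simpa using this
  have c1 := a1.cos
  have s1 := a1.sin
  have c2 := a2.cos
  have s2 := a2.sin
  refine ⟨?_, ?_, ?_⟩
  · apply emb_dir
    have := ((c1.const_add 2).div_const (2 * Real.pi)).mul c2
    refine HasDerivAt.congr_deriv this ?_
    simp only [zero_mul, add_zero]
    field_simp
    ring
  · apply emb_dir
    have := ((c1.const_add 2).div_const (2 * Real.pi)).mul s2
    refine HasDerivAt.congr_deriv this ?_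
    simp only [zero_mul, add_zero]
    field_simp
  · apply emb_dir
    have := s1.div_const (2 * Real.pi)
    refine HasDerivAt.congr_deriv this ?_
    simp only [zero_mul, add_zero]
    field_simp

lemma emb_isometric (p : ℝ × ℝ) (i j : Fin 2) :
    ⟪fderiv ℝ emb p (dir i), fderiv ℝ emb p (dir j)⟫ = (met 1 one_pos).mat p i j := by
  have s1 := Real.sin_sq_add_cos_sq (2 * Real.pi * p.1)
  have s2 := Real.sin_sq_add_cos_sq (2 * Real.pi * p.2)
  obtain ⟨x0, x1, x2⟩ := emb_d p 1 0
  obtain ⟨y0, y1, y2⟩ := emb_d p 0 1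
  fin_cases i <;> fin_cases j
  · show ⟪fderiv ℝ emb p (1, 0), fderiv ℝ emb p (1, 0)⟫ = (1:ℝ)
    rw [inner3, x0, x1, x2]
    linear_combination (Real.sin (2 * Real.pi * p.1)) ^ 2 * s2 + s1
  · show ⟪fderiv ℝ emb p (1, 0), fderiv ℝ emb p (0, 1)⟫ = (0:ℝ)
    rw [inner3, x0, x1, x2, y0, y1, y2]
    ring
  · show ⟪fderiv ℝ emb p (0, 1), fderiv ℝ emb p (1, 0)⟫ = (0:ℝ)
    rw [inner3, x0, x1, x2, y0, y1, y2]
    ring
  · show ⟪fderiv ℝ emb p (0, 1), fderiv ℝ emb p (0, 1)⟫ = prof 1 p.1 ^ 2
    rw [inner3, y0, y1, y2, prof]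
    linear_combination (2 + Real.cos (2 * Real.pi * p.1)) ^ 2 * s2

lemma cos_add_int (u : ℝ) (m : ℤ) : Real.cos (2 * Real.pi * (u + m)) = Real.cos (2 * Real.pi * u) := by
  have : 2 * Real.pi * (u + m) = 2 * Real.pi * u + m * (2 * Real.pi) := by ring
  rw [this, Real.cos_add_int_mul_two_pi]

lemma sin_add_int (u : ℝ) (m : ℤ) : Real.sin (2 * Real.pi * (u + m)) = Real.sin (2 * Real.pi * u) := by
  have : 2 * Real.pi * (u + m) = 2 * Real.pi * u + m * (2 * Real.pi) := by ring
  rw [this, Real.sin_add_int_mul_two_pi]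

lemma angle_eq {u v : ℝ} (hc : Real.cos (2 * Real.pi * u) = Real.cos (2 * Real.pi * v))
    (hs : Real.sin (2 * Real.pi * u) = Real.sin (2 * Real.pi * v)) : ∃ m : ℤ, v = u + m := by
  have h : Real.cos (2 * Real.pi * v - 2 * Real.pi * u) = 1 := by
    rw [Real.cos_sub, hc, hs]
    nlinarith [Real.sin_sq_add_cos_sq (2 * Real.pi * v)]
  rw [Real.cos_eq_one_iff] at h
  obtain ⟨n, hn⟩ := h
  refine ⟨n, ?_⟩
  have hπ := Real.pi_ne_zero
  have : 2 * Real.pi * (v - u - n) = 0 := by linarith
  have h2 : v - u - n = 0 := by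
    rcases mul_eq_zero.1 this with h | h
    · exact absurd h (by positivity)
    · exact h
  linarith

lemma emb_embedding : IsIsometricEmbedding (met 1 one_pos) emb where
  smooth := emb_smooth
  periodic := by
    intro p m n
    unfold emb
    simp only [cos_add_int, sin_add_int]
  isometric := emb_isometric
  injective := by
    intro p q h
    have hπ := Real.pi_pos
    have e0 : (2 + Real.cos (2 * Real.pi * p.1)) / (2 * Real.pi) * Real.cos (2 * Real.pi * p.2)
        = (2 + Real.cos (2 * Real.pi * q.1)) / (2 * Real.pi) * Real.cos (2 * Real.pi * q.2) :=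
      congrArg (fun x : EuclideanSpace ℝ (Fin 3) => x 0) h
    have e1 : (2 + Real.cos (2 * Real.pi * p.1)) / (2 * Real.pi) * Real.sin (2 * Real.pi * p.2)
        = (2 + Real.cos (2 * Real.pi * q.1)) / (2 * Real.pi) * Real.sin (2 * Real.pi * q.2) :=
      congrArg (fun x : EuclideanSpace ℝ (Fin 3) => x 1) h
    have e2 : Real.sin (2 * Real.pi * p.1) / (2 * Real.pi)
        = Real.sin (2 * Real.pi * q.1) / (2 * Real.pi) :=
      congrArg (fun x : EuclideanSpace ℝ (Fin 3) => x 2) h
    have hs : Real.sin (2 * Real.pi * p.1) = Real.sin (2 * Real.pi * q.1) := by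
      field_simp at e2; exact e2
    have hp : 0 < 2 + Real.cos (2 * Real.pi * p.1) := by
      have := Real.neg_one_le_cos (2 * Real.pi * p.1); linarith
    have hq : 0 < 2 + Real.cos (2 * Real.pi * q.1) := by
      have := Real.neg_one_le_cos (2 * Real.pi * q.1); linarith
    have f0 : (2 + Real.cos (2 * Real.pi * p.1)) * Real.cos (2 * Real.pi * p.2)
        = (2 + Real.cos (2 * Real.pi * q.1)) * Real.cos (2 * Real.pi * q.2) := by
      field_simp at e0; linarith
    have f1 : (2 + Real.cos (2 * Real.pi * p.1)) * Real.sin (2 * Real.pi * p.2)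
        = (2 + Real.cos (2 * Real.pi * q.1)) * Real.sin (2 * Real.pi * q.2) := by
      field_simp at e1; linarith
    have hr : (2 + Real.cos (2 * Real.pi * p.1)) ^ 2 = (2 + Real.cos (2 * Real.pi * q.1)) ^ 2 := by
      have t1 := Real.sin_sq_add_cos_sq (2 * Real.pi * p.2)
      have t2 := Real.sin_sq_add_cos_sq (2 * Real.pi * q.2)
      have g0 := congrArg (fun x => x ^ 2) f0
      have g1 := congrArg (fun x => x ^ 2) f1
      simp only [mul_pow] at g0 g1
      linear_combination g0 + g1 - (2 + Real.cos (2 * Real.pi * p.1)) ^ 2 * t1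
        + (2 + Real.cos (2 * Real.pi * q.1)) ^ 2 * t2
    have hr' : 2 + Real.cos (2 * Real.pi * p.1) = 2 + Real.cos (2 * Real.pi * q.1) := by
      rcases sq_eq_sq_iff_eq_or_eq_neg.1 hr with h | h
      · exact h
      · linarith
    obtain ⟨m, hm⟩ := angle_eq (u := p.1) (v := q.1) (by linarith) hs
    rw [← hr'] at f0 f1
    obtain ⟨n, hn⟩ := angle_eq (u := p.2) (v := q.2) (mul_left_cancel₀ hp.ne' f0)
      (mul_left_cancel₀ hp.ne' f1)
    exact ⟨m, n, Prod.ext hm hn⟩

/-! ### closeness -/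

lemma pointNorm_met {c : ℝ} (hc : 0 < c) (hc1 : c < 1) (p : ℝ × ℝ) :
    pointNorm (met 1 one_pos) (met c hc) p = 1 - c ^ 2 := by
  have hP := (prof_pos one_pos p.1).ne'
  have e : prof c p.1 = c * prof 1 p.1 := by unfold prof; ring
  have hinv : ((met 1 one_pos).mat p)⁻¹ = !![1, 0; 0, (prof 1 p.1 ^ 2)⁻¹] := by
    apply Matrix.inv_eq_left_inv
    show !![1, 0; 0, (prof 1 p.1 ^ 2)⁻¹] * !![1, 0; 0, prof 1 p.1 ^ 2] = 1
    rw [Matrix.mul_fin_two, Matrix.one_fin_two]
    simp [hP]
  have hsub : (met c hc).mat p - (met 1 one_pos).mat p = !![0, 0; 0, (c ^ 2 - 1) * prof 1 p.1 ^ 2] := by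
    show !![1, 0; 0, prof c p.1 ^ 2] - !![1, 0; 0, prof 1 p.1 ^ 2] = _
    rw [e]
    ext i j
    fin_cases i <;> fin_cases j <;> (simp; try ring)
  have hmul : ((met 1 one_pos).mat p)⁻¹ * ((met c hc).mat p - (met 1 one_pos).mat p)
      = !![0, 0; 0, c ^ 2 - 1] := by
    rw [hinv, hsub, Matrix.mul_fin_two]
    ext i j
    fin_cases i <;> fin_cases j <;> simp
    field_simp
  unfold pointNorm
  rw [hmul, Matrix.mul_fin_two, Matrix.trace_fin_two]
  simp only [Matrix.of_apply, Matrix.cons_val', Matrix.cons_val_zero, Matrix.cons_val_one,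
    mul_zero, add_zero, zero_add, Matrix.cons_val_fin_one]
  have h1 : (c ^ 2 - 1) * (c ^ 2 - 1) = (1 - c ^ 2) ^ 2 := by ring
  rw [h1, Real.sqrt_sq (by nlinarith)]

lemma bounded_of_periodic {V : Type*} [NormedAddCommGroup V] {G : ℝ × ℝ → V} (hc : Continuous G)
    (hp : ∀ (p : ℝ × ℝ) (m n : ℤ), G (p.1 + m, p.2 + n) = G p) : ∃ C, ∀ p, ‖G p‖ ≤ C := by
  have hfr : ∀ q : ℝ × ℝ, G (Int.fract q.1, Int.fract q.2) = G q := by
    intro q
    have := hp q (-⌊q.1⌋) (-⌊q.2⌋)
    rw [← this]
    congr 1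
    push_cast
    simp only [Int.fract, sub_eq_add_neg]
  obtain ⟨C, hC⟩ := (isCompact_Icc (a := ((0:ℝ), (0:ℝ))) (b := ((1:ℝ), (1:ℝ)))).exists_bound_of_continuousOn
    hc.continuousOn
  refine ⟨C, fun p => ?_⟩
  rw [← hfr]
  apply hC
  refine ⟨?_, ?_⟩
  · exact Prod.le_def.2 ⟨Int.fract_nonneg _, Int.fract_nonneg _⟩
  · exact Prod.le_def.2 ⟨(Int.fract_lt_one _).le, (Int.fract_lt_one _).le⟩

/-- the fixed tensor of which all differences are multiples -/
noncomputable def ten (i j : Fin 2) (q : ℝ × ℝ) : ℝ :=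
  (!![0, 0; 0, prof 1 q.1 ^ 2] : Matrix (Fin 2) (Fin 2) ℝ) i j

lemma ten_smooth (i j : Fin 2) : ContDiff ℝ ∞ (ten i j) := by
  fin_cases i <;> fin_cases j
  · exact contDiff_const
  · exact contDiff_const
  · exact contDiff_const
  · exact ((prof_smooth 1).comp contDiff_fst).pow 2

lemma ten_bound (k : ℕ) (i j : Fin 2) : ∃ C, ∀ p, ‖iteratedFDeriv ℝ k (ten i j) p‖ ≤ C := by
  apply bounded_of_periodic
  · exact (ten_smooth i j).continuous_iteratedFDeriv (by exact_mod_cast le_top)
  · intro p m n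
    have h := iteratedFDeriv_comp_add_right (𝕜 := ℝ) (f := ten i j) k ((m : ℝ), (n : ℝ)) p
    have h2 : (fun z : ℝ × ℝ => ten i j (z + ((m : ℝ), (n : ℝ)))) = ten i j := by
      funext z
      unfold ten
      simp only [Prod.fst_add, prof_add_int]
    rw [h2] at h
    rw [h]
    rfl

lemma ten_bound' (K : ℕ) : ∃ C, ∀ k ≤ K, ∀ i j p, ‖iteratedFDeriv ℝ k (ten i j) p‖ ≤ C := by
  choose C hC using ten_bound
  refine ⟨∑ k ∈ Finset.range (K + 1), ∑ i, ∑ j, |C k i j|, fun k hk i j p => ?_⟩
  calc ‖iteratedFDeriv ℝ k (ten i j) p‖ ≤ C k i j := hC k i j p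
    _ ≤ |C k i j| := le_abs_self _
    _ ≤ ∑ j, |C k i j| := Finset.single_le_sum (f := fun j => |C k i j|)
        (fun _ _ => abs_nonneg _) (Finset.mem_univ j)
    _ ≤ ∑ i, ∑ j, |C k i j| := Finset.single_le_sum (f := fun i => ∑ j, |C k i j|)
        (fun _ _ => Finset.sum_nonneg fun _ _ => abs_nonneg _) (Finset.mem_univ i)
    _ ≤ _ := Finset.single_le_sum (f := fun k => ∑ i, ∑ j, |C k i j|)
        (fun _ _ => Finset.sum_nonneg fun _ _ => Finset.sum_nonneg fun _ _ => abs_nonneg _)
        (Finset.mem_range.2 (by omega))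

lemma diff_eq {c : ℝ} (hc : 0 < c) (i j : Fin 2) :
    (fun q => (met c hc).mat q i j - (met 1 one_pos).mat q i j) = (c ^ 2 - 1) • ten i j := by
  funext q
  have e : prof c q.1 = c * prof 1 q.1 := by unfold prof; ring
  show (!![1, 0; 0, prof c q.1 ^ 2] : Matrix (Fin 2) (Fin 2) ℝ) i j
    - (!![1, 0; 0, prof 1 q.1 ^ 2] : Matrix (Fin 2) (Fin 2) ℝ) i j
    = (c ^ 2 - 1) * (!![0, 0; 0, prof 1 q.1 ^ 2] : Matrix (Fin 2) (Fin 2) ℝ) i j
  rw [e]
  fin_cases i <;> fin_cases j <;> simp
  ring

/-- **A smoothly embedded torus with arbitrarily small perturbations of its metric that have no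
smooth isometric immersion into `ℝ³`.** -/
theorem result : ∃ g₀ : TorusMetric, (∃ f, IsIsometricEmbedding g₀ f) ∧
    ∀ (K : ℕ) (ε : ℝ), 0 < ε → ∃ g : TorusMetric, C0Close g₀ g ε ∧ CkClose K g₀ g ε ∧
      ¬ ∃ f, IsIsometricImmersion g f := by
  refine ⟨met 1 one_pos, ⟨emb, emb_embedding⟩, fun K ε hε => ?_⟩
  obtain ⟨C, hC⟩ := ten_bound' K
  have hC0 : 0 ≤ C := (norm_nonneg _).trans (hC 0 (Nat.zero_le _) 0 0 (0, 0))
  -- choose `c`
  set η : ℝ := min (1 / 2) (ε / (4 * (C + 1))) with hη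
  have hη0 : 0 < η := by
    rw [hη]; apply lt_min (by norm_num); positivity
  have hη1 : η ≤ 1 / 2 := min_le_left _ _
  have hη2 : η ≤ ε / (4 * (C + 1)) := min_le_right _ _
  have hη3 : 4 * η * (C + 1) ≤ ε := by
    rw [le_div_iff₀ (by positivity)] at hη2; linarith
  have hc : 0 < 1 - η := by linarith
  have hc1 : 1 - η < 1 := by linarith
  have hsq : 1 - (1 - η) ^ 2 ≤ 2 * η := by nlinarith
  have hsq0 : 0 ≤ 1 - (1 - η) ^ 2 := by nlinarith
  refine ⟨met (1 - η) hc, ⟨1 - (1 - η) ^ 2, ?_, fun p => (pointNorm_met hc hc1 p).le⟩, ?_,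
    no_immersion hc hc1⟩
  · have : 2 * η < 4 * η * (C + 1) := by nlinarith
    linarith
  · intro k hk i j p
    rw [diff_eq hc, iteratedFDeriv_const_smul_apply]
    · rw [norm_smul, Real.norm_eq_abs, abs_of_nonpos (by linarith)]
      have h1 := hC k hk i j p
      have h2 : -((1 - η) ^ 2 - 1) * ‖iteratedFDeriv ℝ k (ten i j) p‖ ≤ 2 * η * C := by
        apply mul_le_mul (by linarith) h1 (norm_nonneg _) (by linarith)
      have h3 : 2 * η * C < 4 * η * (C + 1) := by nlinarith
      linarith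
    · exact ((contDiff_infty.1 (ten_smooth i j)) k).contDiffAt

end Pool.Agent.Results.MP_665542_gt.TightTorus
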